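import Mathlib

set_option autoImplicit false
open MeasureTheory Set

namespace Pool.Agent.Results.MP_8c5903_an.NoUniformGain

/-- The dyadic interval `[k 2^j, (k+1) 2^j)`. -/
def dy (j k : ℤ) : Set ℝ := Ico ((k : ℝ) * 2 ^ j) (((k : ℝ) + 1) * 2 ^ j)

/-- The indicator function of the dyadic interval. -/
noncomputable def ind (j k : ℤ) (x : ℝ) : ℝ := (dy j k).indicator (fun _ => (1 : ℝ)) x

/-- The Haar function of the dyadic interval `dy j k`: its left half is `dy (j-1) (2k)`, its right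
half is `dy (j-1) (2k+1)`, its length is `2^j`. -/
noncomputable def haar (j k : ℤ) (x : ℝ) : ℝ :=
  (Real.sqrt ((2 : ℝ) ^ j))⁻¹ * (ind (j - 1) (2 * k + 1) x - ind (j - 1) (2 * k) x)

/-- The image of the Haar function of `dy j k` under the one-parameter Haar shift.  If `k` is even,
`dy j k` is the left half of its parent and its sibling is `dy j (k+1)`; if `k` is odd, it is the
right half and its sibling is `dy j (k-1)`. -/
noncomputable def thaar (j k : ℤ) (x : ℝ) : ℝ :=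
  if Even k then - haar j (k + 1) x else haar j (k - 1) x

/-- Tensor product of two functions. -/
def tens (f g : ℝ → ℝ) (p : ℝ × ℝ) : ℝ := f p.1 * g p.2

/-- The space `L²(ℝ²)`. -/
abbrev L2R2 : Type := Lp ℝ 2 (volume : Measure (ℝ × ℝ))

/-- `T` acts on the product Haar functions as the tensor square of the Haar shift. -/
def IsShift (T : L2R2 →L[ℝ] L2R2) : Prop :=
  ∀ (j k j' k' : ℤ) (F : L2R2), (F : ℝ × ℝ → ℝ) =ᵐ[volume] tens (haar j k) (haar j' k') →
    (T F : ℝ × ℝ → ℝ) =ᵐ[volume] tens (thaar j k) (thaar j' k')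

lemma ind_meas (j k : ℤ) : Measurable (ind j k) :=
  measurable_const.indicator measurableSet_Ico

lemma ind_split (j k : ℤ) (x : ℝ) : ind j k x = ind (j - 1) (2 * k) x + ind (j - 1) (2 * k + 1) x := by
  have h2 : (2 : ℝ) ^ j = 2 * 2 ^ (j - 1) := by
    rw [← zpow_one_add₀ (by norm_num : (2 : ℝ) ≠ 0)]
    congr 1
    ring
  have hp : (0 : ℝ) < 2 ^ (j - 1) := by positivity
  unfold ind dy
  simp only [Set.indicator_apply, Set.mem_Ico]
  push_cast
  rw [h2]
  set t := (2 : ℝ) ^ (j - 1)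
  by_cases h1 : (k : ℝ) * (2 * t) ≤ x
  · by_cases h3 : x < (2 * (k : ℝ) + 1) * t
    · rw [if_pos, if_pos, if_neg]
      · ring
      · intro h; linarith [h.1]
      · exact ⟨by nlinarith, h3⟩
      · exact ⟨h1, by nlinarith⟩
    · push Not at h3
      by_cases h4 : x < ((k : ℝ) + 1) * (2 * t)
      · rw [if_pos ⟨h1, h4⟩, if_neg, if_pos]
        · ring
        · exact ⟨h3, by nlinarith⟩
        · intro h; linarith [h.2]
      · rw [if_neg, if_neg, if_neg]
        · ring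
        · intro h; apply h4; nlinarith [h.2]
        · intro h; linarith [h.2]
        · intro h; exact h4 h.2
  · rw [if_neg, if_neg, if_neg]
    · ring
    · intro h; apply h1; nlinarith [h.1]
    · intro h; apply h1; nlinarith [h.1]
    · intro h; exact h1 h.1

lemma ind_mul_ind_ne (j k k' : ℤ) (h : k ≠ k') (x : ℝ) : ind j k x * ind j k' x = 0 := by
  have hp : (0 : ℝ) < 2 ^ j := by positivity
  unfold ind dy
  simp only [Set.indicator_apply, Set.mem_Ico]
  split_ifs with h1 h2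
  · exfalso
    apply h
    have a1 : (k : ℝ) < k' + 1 := by
      have := lt_of_le_of_lt h1.1 h2.2
      exact lt_of_mul_lt_mul_right this hp.le
    have a2 : (k' : ℝ) < k + 1 := by
      have := lt_of_le_of_lt h2.1 h1.2
      exact lt_of_mul_lt_mul_right this hp.le
    have b1 : k < k' + 1 := by exact_mod_cast a1
    have b2 : k' < k + 1 := by exact_mod_cast a2
    omega
  all_goals simp

lemma ind_integral (j k : ℤ) : ∫ x, ind j k x = 2 ^ j := by
  unfold ind dy
  rw [integral_indicator measurableSet_Ico]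
  simp only [integral_const, smul_eq_mul, mul_one]
  rw [measureReal_restrict_apply MeasurableSet.univ, Set.univ_inter, Real.volume_real_Ico_of_le]
  · ring
  · nlinarith [show (0 : ℝ) < 2 ^ j by positivity]

/-- the union of the squares `K × K` over the dyadic intervals `K` of length `2^{-n}` in `[0,1)` -/
def US (n : ℕ) : Set (ℝ × ℝ) :=
  ⋃ m ∈ Finset.range (2 ^ n), (dy (-(n : ℤ)) (m : ℤ)) ×ˢ (dy (-(n : ℤ)) (m : ℤ))

lemma US_meas (n : ℕ) : MeasurableSet (US n) := by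
  apply Finset.measurableSet_biUnion
  intro m _
  exact measurableSet_Ico.prod measurableSet_Ico

/-- its indicator function -/
noncomputable def uu (n : ℕ) (p : ℝ × ℝ) : ℝ :=
  ∑ m ∈ Finset.range (2 ^ n), tens (ind (-(n : ℤ)) m) (ind (-(n : ℤ)) m) p

lemma uu_eq (n : ℕ) : uu n = (US n).indicator (fun _ => (1 : ℝ)) := by
  funext p
  by_cases hp : p ∈ US n
  · rw [Set.indicator_of_mem hp]
    unfold US at hp
    simp only [Set.mem_iUnion, Set.mem_prod, exists_prop] at hp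
    obtain ⟨m, hm, h1, h2⟩ := hp
    unfold uu
    rw [Finset.sum_eq_single_of_mem m hm]
    · simp only [tens, ind, Set.indicator_of_mem h1, Set.indicator_of_mem h2, mul_one]
    · intro b _ hbm
      have h3 := ind_mul_ind_ne (-(n : ℤ)) (b : ℤ) (m : ℤ) (by exact_mod_cast hbm) p.1
      have h4 : ind (-(n : ℤ)) m p.1 = 1 := by simp only [ind, Set.indicator_of_mem h1]
      rw [h4, mul_one] at h3
      simp only [tens, h3, zero_mul]
  · rw [Set.indicator_of_notMem hp]
    unfold uu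
    apply Finset.sum_eq_zero
    intro m hm
    simp only [tens, ind]
    by_cases h1 : p.1 ∈ dy (-(n : ℤ)) m
    · by_cases h2 : p.2 ∈ dy (-(n : ℤ)) m
      · exfalso
        apply hp
        unfold US
        simp only [Set.mem_iUnion, Set.mem_prod, exists_prop]
        exact ⟨m, hm, h1, h2⟩
      · rw [Set.indicator_of_notMem h2, mul_zero]
    · rw [Set.indicator_of_notMem h1, zero_mul]

lemma ind_integrable (j k : ℤ) : Integrable (ind j k) := by
  unfold ind dy
  rw [integrable_indicator_iff measurableSet_Ico]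
  exact integrableOn_const (by simp)

lemma uu_integral (n : ℕ) : ∫ p, uu n p = ((2 : ℝ) ^ n)⁻¹ := by
  unfold uu
  rw [integral_finsetSum]
  · simp only [tens]
    have h : ∀ m : ℕ, ∫ p : ℝ × ℝ, ind (-(n : ℤ)) m p.1 * ind (-(n : ℤ)) m p.2
        = (2 ^ (-(n : ℤ))) * (2 ^ (-(n : ℤ))) := by
      intro m
      rw [Measure.volume_eq_prod, integral_prod_mul, ind_integral]
    simp only [h, Finset.sum_const, Finset.card_range, nsmul_eq_mul]
    push_cast
    rw [zpow_neg, zpow_natCast]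
    have : (2 : ℝ) ^ n ≠ 0 := by positivity
    field_simp
  · intro m _
    change Integrable (fun p : ℝ × ℝ => ind (-(n : ℤ)) m p.1 * ind (-(n : ℤ)) m p.2)
    rw [Measure.volume_eq_prod]
    exact (ind_integrable _ _).mul_prod (ind_integrable _ _)

lemma US_vol (n : ℕ) : volume.real (US n) = ((2 : ℝ) ^ n)⁻¹ := by
  rw [← uu_integral n, uu_eq n, integral_indicator (US_meas n), setIntegral_const]
  rw [smul_eq_mul, mul_one]

lemma US_ne_top (n : ℕ) : volume (US n) ≠ ⊤ := by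
  intro h
  have h1 := US_vol n
  rw [measureReal_def, h] at h1
  have h2 : (0 : ℝ) < ((2 : ℝ) ^ n)⁻¹ := by positivity
  simp only [ENNReal.toReal_top] at h1
  linarith

lemma sum_double (F : ℕ → ℝ) (N : ℕ) :
    ∑ m ∈ Finset.range (2 * N), F m = ∑ m ∈ Finset.range N, (F (2 * m) + F (2 * m + 1)) := by
  induction N with
  | zero => simp
  | succ N ih =>
    rw [Finset.sum_range_succ, ← ih, show 2 * (N + 1) = 2 * N + 1 + 1 by ring,
      Finset.sum_range_succ, Finset.sum_range_succ]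
    ring

/-- the sum of the diagonal product Haar functions of generation `n` -/
noncomputable def ss (n : ℕ) (p : ℝ × ℝ) : ℝ :=
  ∑ m ∈ Finset.range (2 ^ n), tens (haar (-(n : ℤ)) m) (haar (-(n : ℤ)) m) p

lemma rec_point (n : ℕ) (p : ℝ × ℝ) :
    uu (n + 1) p = (1 / 2) * uu n p + (1 / 2) * ((2 : ℝ) ^ n)⁻¹ * ss n p := by
  unfold uu ss
  rw [pow_succ, mul_comm (2 ^ n) 2, sum_double, Finset.mul_sum, Finset.mul_sum,
    ← Finset.sum_add_distrib]
  apply Finset.sum_congr rfl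
  intro m _
  have e1 : (-((n + 1 : ℕ) : ℤ)) = -(n : ℤ) - 1 := by push_cast; ring
  rw [e1]
  simp only [tens, haar]
  rw [ind_split (-(n : ℤ)) m p.1, ind_split (-(n : ℤ)) m p.2]
  push_cast
  have h2 : (Real.sqrt ((2 : ℝ) ^ (-(n : ℤ))))⁻¹ * (Real.sqrt ((2 : ℝ) ^ (-(n : ℤ))))⁻¹
      = (2 : ℝ) ^ n := by
    rw [← mul_inv, Real.mul_self_sqrt (by positivity), zpow_neg, inv_inv, zpow_natCast]
  have h3 : ((2 : ℝ) ^ n)⁻¹ * (2 : ℝ) ^ n = 1 := inv_mul_cancel₀ (by positivity)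
  set a := ind (-(n : ℤ) - 1) (2 * m) p.1
  set b := ind (-(n : ℤ) - 1) (2 * m + 1) p.1
  set a' := ind (-(n : ℤ) - 1) (2 * m) p.2
  set b' := ind (-(n : ℤ) - 1) (2 * m + 1) p.2
  set s := (Real.sqrt ((2 : ℝ) ^ (-(n : ℤ))))⁻¹
  have h4 : (1 / 2) * ((2 : ℝ) ^ n)⁻¹ * (s * (b - a) * (s * (b' - a')))
      = (1 / 2) * ((b - a) * (b' - a')) := by
    have : (1 / 2) * ((2 : ℝ) ^ n)⁻¹ * (s * (b - a) * (s * (b' - a')))
      = (1 / 2) * (((2 : ℝ) ^ n)⁻¹ * (s * s)) * ((b - a) * (b' - a')) := by ring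
    rw [this, h2, h3]
    ring
  rw [h4]
  ring

lemma haar_memLp (j k : ℤ) : MemLp (haar j k) 2 := by
  have h : ∀ i l : ℤ, MemLp (ind i l) 2 := by
    intro i l
    unfold ind dy
    exact memLp_indicator_const 2 measurableSet_Ico 1 (Or.inr (by simp))
  exact ((h _ _).sub (h _ _)).const_mul _

lemma tens_memLp {f g : ℝ → ℝ} (hf : MemLp f 2) (hg : MemLp g 2) :
    MemLp (tens f g) 2 := by
  have hm : AEStronglyMeasurable (tens f g) (volume : Measure (ℝ × ℝ)) := by
    unfold tens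
    exact (hf.1.comp_fst).mul (hg.1.comp_snd)
  rw [memLp_two_iff_integrable_sq hm]
  have h := ((memLp_two_iff_integrable_sq hf.1).1 hf).mul_prod
    ((memLp_two_iff_integrable_sq hg.1).1 hg)
  refine h.congr (Filter.Eventually.of_forall fun p => ?_)
  simp only [tens]
  ring

/-- the diagonal product Haar function as an element of `L²(ℝ²)` -/
noncomputable def HH (n m : ℕ) : L2R2 :=
  (tens_memLp (haar_memLp (-(n : ℤ)) m) (haar_memLp (-(n : ℤ)) m)).toLp _

lemma HH_coe (n m : ℕ) : (HH n m : ℝ × ℝ → ℝ) =ᵐ[volume]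
    tens (haar (-(n : ℤ)) m) (haar (-(n : ℤ)) m) := MemLp.coeFn_toLp _

lemma T_HH_even {T : L2R2 →L[ℝ] L2R2} (hT : IsShift T) (n m : ℕ) :
    T (HH n (2 * m)) = HH n (2 * m + 1) := by
  apply Lp.ext
  have h := hT _ _ _ _ _ (HH_coe n (2 * m))
  refine h.trans (Filter.EventuallyEq.trans ?_ (HH_coe n (2 * m + 1)).symm)
  refine Filter.Eventually.of_forall fun p => ?_
  have he : Even (((2 * m : ℕ) : ℤ)) := by
    push_cast
    exact even_two_mul _
  simp only [tens, thaar, if_pos he]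
  push_cast
  ring

lemma T_HH_odd {T : L2R2 →L[ℝ] L2R2} (hT : IsShift T) (n m : ℕ) :
    T (HH n (2 * m + 1)) = HH n (2 * m) := by
  apply Lp.ext
  have h := hT _ _ _ _ _ (HH_coe n (2 * m + 1))
  refine h.trans (Filter.EventuallyEq.trans ?_ (HH_coe n (2 * m)).symm)
  refine Filter.Eventually.of_forall fun p => ?_
  have he : ¬ Even (((2 * m + 1 : ℕ) : ℤ)) := by
    push_cast
    rw [Int.even_add_one]
    simp
  simp only [tens, thaar, if_neg he]
  push_cast
  simp

lemma sum_doubleL (F : ℕ → L2R2) (N : ℕ) :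
    ∑ m ∈ Finset.range (2 * N), F m = ∑ m ∈ Finset.range N, (F (2 * m) + F (2 * m + 1)) := by
  induction N with
  | zero => simp
  | succ N ih =>
    rw [Finset.sum_range_succ, ← ih, show 2 * (N + 1) = 2 * N + 1 + 1 by ring,
      Finset.sum_range_succ, Finset.sum_range_succ]
    abel

/-- the sum of the diagonal product Haar functions as an element of `L²(ℝ²)` -/
noncomputable def SS (n : ℕ) : L2R2 := ∑ m ∈ Finset.range (2 ^ n), HH n m

lemma T_SS {T : L2R2 →L[ℝ] L2R2} (hT : IsShift T) (n : ℕ) : T (SS (n + 1)) = SS (n + 1) := by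
  unfold SS
  rw [pow_succ, mul_comm (2 ^ n) 2, sum_doubleL, map_sum]
  apply Finset.sum_congr rfl
  intro m _
  rw [map_add, T_HH_even hT, T_HH_odd hT, add_comm]

lemma sum_coe (F : ℕ → L2R2) (f : ℕ → ℝ × ℝ → ℝ)
    (h : ∀ m, (F m : ℝ × ℝ → ℝ) =ᵐ[volume] f m) (N : ℕ) :
    ((∑ m ∈ Finset.range N, F m : L2R2) : ℝ × ℝ → ℝ) =ᵐ[volume]
      fun p => ∑ m ∈ Finset.range N, f m p := by
  induction N with
  | zero =>
    simp only [Finset.range_zero, Finset.sum_empty]
    exact Lp.coeFn_zero _ _ _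
  | succ N ih =>
    rw [Finset.sum_range_succ]
    filter_upwards [Lp.coeFn_add (∑ m ∈ Finset.range N, F m) (F N), ih, h N] with p h1 h2 h3
    rw [h1, Pi.add_apply, h2, h3, Finset.sum_range_succ]

lemma SS_coe (n : ℕ) : (SS n : ℝ × ℝ → ℝ) =ᵐ[volume] ss n :=
  sum_coe _ _ (HH_coe n) _

/-- the indicator function of `US n` as an element of `L²(ℝ²)` -/
noncomputable def UU (n : ℕ) : L2R2 := indicatorConstLp 2 (US_meas n) (US_ne_top n) (1 : ℝ)

lemma UU_rec (n : ℕ) : UU (n + 1) = (1 / 2 : ℝ) • UU n + ((1 / 2) * ((2 : ℝ) ^ n)⁻¹) • SS n := by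
  apply Lp.ext
  have h1 : (UU (n + 1) : ℝ × ℝ → ℝ) =ᵐ[volume] (US (n + 1)).indicator (fun _ => (1 : ℝ)) :=
    indicatorConstLp_coeFn
  have h2 : (UU n : ℝ × ℝ → ℝ) =ᵐ[volume] (US n).indicator (fun _ => (1 : ℝ)) :=
    indicatorConstLp_coeFn
  filter_upwards [h1, h2, SS_coe n, Lp.coeFn_add ((1 / 2 : ℝ) • UU n)
    (((1 / 2) * ((2 : ℝ) ^ n)⁻¹) • SS n), Lp.coeFn_smul (1 / 2 : ℝ) (UU n),
    Lp.coeFn_smul ((1 / 2) * ((2 : ℝ) ^ n)⁻¹) (SS n)] with p p1 p2 p3 p4 p5 p6
  rw [p1, p4, Pi.add_apply, p5, p6, Pi.smul_apply, Pi.smul_apply, p2, p3, ← uu_eq, ← uu_eq,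
    rec_point]
  simp only [smul_eq_mul]

lemma T_UU {T : L2R2 →L[ℝ] L2R2} (hT : IsShift T) (n : ℕ) :
    T (UU (n + 1)) - UU (n + 1) = ((2 : ℝ) ^ n)⁻¹ • (T (UU 1) - UU 1) := by
  induction n with
  | zero => simp
  | succ n ih =>
    rw [UU_rec (n + 1), map_add, map_smul, map_smul, T_SS hT]
    have : (1 / 2 : ℝ) • T (UU (n + 1)) + (1 / 2 * ((2 : ℝ) ^ (n + 1))⁻¹) • SS (n + 1)
        - ((1 / 2 : ℝ) • UU (n + 1) + (1 / 2 * ((2 : ℝ) ^ (n + 1))⁻¹) • SS (n + 1))
        = (1 / 2 : ℝ) • (T (UU (n + 1)) - UU (n + 1)) := by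
      rw [smul_sub]
      abel
    rw [this, ih, smul_smul]
    congr 1
    rw [pow_succ, mul_inv]
    ring

lemma UU_norm (n : ℕ) : ‖UU n‖ ^ 2 = ((2 : ℝ) ^ n)⁻¹ := by
  have h : inner ℝ (UU n) (UU n) = ∫ x in US n, (UU n : ℝ × ℝ → ℝ) x := by
    exact L2.inner_indicatorConstLp_one (US_meas n) (US_ne_top n) (UU n)
  rw [← real_inner_self_eq_norm_sq, h, ← US_vol n]
  have h2 : (UU n : ℝ × ℝ → ℝ) =ᵐ[volume] (US n).indicator (fun _ => (1 : ℝ)) :=
    indicatorConstLp_coeFn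
  rw [integral_congr_ae (ae_restrict_of_ae h2), setIntegral_indicator (US_meas n),
    Set.inter_self, setIntegral_const]
  simp

/-- the basic inequality -/
lemma lower {T : L2R2 →L[ℝ] L2R2} (n : ℕ) :
    volume.real (US n) - 2 * ‖UU n‖ * ‖T (UU n) - UU n‖
      ≤ ∫ x in US n, ((T (UU n) : L2R2) : ℝ × ℝ → ℝ) x ^ 2 := by
  set v : L2R2 := T (UU n)
  have h1 : inner ℝ (UU n) (v - UU n) = ∫ x in US n, ((v - UU n : L2R2) : ℝ × ℝ → ℝ) x :=
    L2.inner_indicatorConstLp_one (US_meas n) (US_ne_top n) (v - UU n)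
  have h2 : -(‖UU n‖ * ‖v - UU n‖) ≤ inner ℝ (UU n) (v - UU n) :=
    (abs_le.1 (abs_real_inner_le_norm _ _)).1
  have : IsFiniteMeasure (volume.restrict (US n)) :=
    ⟨by rw [Measure.restrict_apply_univ]; exact (US_ne_top n).lt_top⟩
  have hI : ∀ f : L2R2, IntegrableOn (f : ℝ × ℝ → ℝ) (US n) := by
    intro f
    exact ((Lp.memLp f).restrict (US n)).integrable (by norm_num)
  have hI2 : IntegrableOn (fun x => (v : ℝ × ℝ → ℝ) x ^ 2) (US n) :=
    (Lp.memLp v).integrable_sq.integrableOn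
  have hu : (UU n : ℝ × ℝ → ℝ) =ᵐ[volume.restrict (US n)] fun _ => (1 : ℝ) := by
    have h2 : (UU n : ℝ × ℝ → ℝ) =ᵐ[volume] (US n).indicator (fun _ => (1 : ℝ)) :=
      indicatorConstLp_coeFn
    filter_upwards [ae_restrict_of_ae h2, ae_restrict_mem (US_meas n)] with x hx hx2
    rw [hx, Set.indicator_of_mem hx2]
  have h3 : ∫ x in US n, ((v - UU n : L2R2) : ℝ × ℝ → ℝ) x
      = (∫ x in US n, (v : ℝ × ℝ → ℝ) x) - volume.real (US n) := by
    have e1 : ((v - UU n : L2R2) : ℝ × ℝ → ℝ) =ᵐ[volume.restrict (US n)]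
        fun x => (v : ℝ × ℝ → ℝ) x - 1 := by
      filter_upwards [ae_restrict_of_ae (Lp.coeFn_sub v (UU n)), hu] with x hx hx2
      rw [hx, Pi.sub_apply, hx2]
    rw [integral_congr_ae e1, integral_sub (hI v) (integrable_const _), setIntegral_const]
    simp
  have h4 : ∫ x in US n, (2 * (v : ℝ × ℝ → ℝ) x - 1) ≤ ∫ x in US n, (v : ℝ × ℝ → ℝ) x ^ 2 := by
    apply integral_mono (((hI v).const_mul 2).sub (integrable_const _)) hI2
    intro x
    simp only [Pi.sub_apply]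
    nlinarith [sq_nonneg ((v : ℝ × ℝ → ℝ) x - 1)]
  have h5 : ∫ x in US n, (2 * (v : ℝ × ℝ → ℝ) x - 1)
      = 2 * (∫ x in US n, (v : ℝ × ℝ → ℝ) x) - volume.real (US n) := by
    rw [integral_sub ((hI v).const_mul 2) (integrable_const _), setIntegral_const,
      integral_const_mul]
    simp
  rw [h1, h3] at h2
  rw [h5] at h4
  linarith

/-- **There is no uniform gain.** -/
theorem result (T : L2R2 →L[ℝ] L2R2) (hT : IsShift T) (η : ℝ) (hη : η < 1) :
    ∃ (U : Set (ℝ × ℝ)) (hU : MeasurableSet U) (hU' : volume U ≠ ⊤), 0 < volume.real U ∧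
      η * volume.real U <
        ∫ x in U, ((T (indicatorConstLp 2 hU hU' (1 : ℝ)) : L2R2) : ℝ × ℝ → ℝ) x ^ 2 := by
  set C := ‖T (UU 1) - UU 1‖
  obtain ⟨n, hn⟩ : ∃ n : ℕ, (1 - η)⁻¹ * (4 * (C + 1)) < (Real.sqrt 2) ^ n := by
    exact pow_unbounded_of_one_lt _ (by
      rw [show (1 : ℝ) = Real.sqrt 1 by simp]
      exact Real.sqrt_lt_sqrt (by norm_num) (by norm_num))
  refine ⟨US (n + 1), US_meas _, US_ne_top _, ?_, ?_⟩
  · rw [US_vol]; positivity
  · have h := lower (T := T) (n + 1)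
    have h1 : ‖T (UU (n + 1)) - UU (n + 1)‖ = ((2 : ℝ) ^ n)⁻¹ * C := by
      rw [T_UU hT, norm_smul, Real.norm_of_nonneg (by positivity)]
    have h2 := UU_norm (n + 1)
    have hV := US_vol (n + 1)
    set V := volume.real (US (n + 1))
    set N := ‖UU (n + 1)‖
    have hN : 0 ≤ N := norm_nonneg _
    have hC : 0 ≤ C := norm_nonneg _
    refine lt_of_lt_of_le ?_ h
    rw [h1]
    have hVN : V = N ^ 2 := by rw [h2, hV]
    have hNp : 0 < N := by
      rcases hN.lt_or_eq with h0 | h0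
      · exact h0
      · exfalso
        rw [← h0] at h2
        have : (0 : ℝ) < ((2 : ℝ) ^ (n + 1))⁻¹ := by positivity
        rw [← h2] at this
        norm_num at this
    have h3 : ((2 : ℝ) ^ n)⁻¹ = 2 * N ^ 2 := by
      rw [h2, pow_succ, mul_inv]
      ring
    have h4 : N * (Real.sqrt 2) ^ n < 1 := by
      have e1 : (N * (Real.sqrt 2) ^ n) ^ 2 = 1 / 2 := by
        rw [mul_pow, ← pow_mul, mul_comm n 2, pow_mul, Real.sq_sqrt (by norm_num), h2, pow_succ,
          mul_inv]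
        have : (2 : ℝ) ^ n ≠ 0 := by positivity
        field_simp
      nlinarith [show (0 : ℝ) ≤ N * (Real.sqrt 2) ^ n by positivity]
    have h5 : N * (4 * (C + 1)) < 1 - η := by
      have hp : 0 < 1 - η := by linarith
      have e2 : 4 * (C + 1) < (1 - η) * (Real.sqrt 2) ^ n := by
        have := mul_lt_mul_of_pos_left hn hp
        rwa [← mul_assoc, mul_inv_cancel₀ hp.ne', one_mul] at this
      calc N * (4 * (C + 1)) < N * ((1 - η) * (Real.sqrt 2) ^ n) := by
            exact mul_lt_mul_of_pos_left e2 hNp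
        _ = (1 - η) * (N * (Real.sqrt 2) ^ n) := by ring
        _ < (1 - η) * 1 := mul_lt_mul_of_pos_left h4 hp
        _ = 1 - η := by ring
    rw [hVN, h3]
    have h6 : N ^ 2 * (N * (4 * (C + 1))) < N ^ 2 * (1 - η) :=
      mul_lt_mul_of_pos_left h5 (by positivity)
    nlinarith [pow_pos hNp 3]

end Pool.Agent.Results.MP_8c5903_an.NoUniformGain

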